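import Mathlib
import Pool.Agent.R274.UniS4

namespace Pool.Agent.Results.MP_c793c5_an.UniformSNorm

open ZeroAtInfty

/-- The space of real null sequences has an equivalent norm with uniform property (S). -/
theorem result : ∃ N : Seminorm ℝ C₀(ℕ, ℝ),
    (∃ m M : ℝ, 0 < m ∧ ∀ x, m * ‖x‖ ≤ N x ∧ N x ≤ M * ‖x‖) ∧
    ∀ d : ℝ, 0 < d → d < 2 → ∀ a : ℝ, 0 < a → ∃ δ : ℝ, 0 < δ ∧
      ∀ x y : C₀(ℕ, ℝ), N x = 1 → N y = 1 → d ≤ N (x - y) →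
        ∃ z : C₀(ℕ, ℝ), N z ≤ a ∧ δ ≤ |N (x + z) - N (y + z)| := by
  refine ⟨Pool.Agent.R274.UniS.NN,
    ⟨Real.sqrt (Pool.Agent.R274.UniS.wt Pool.Agent.R274.UniS.k0), 2,
      Real.sqrt_pos.2 (Pool.Agent.R274.UniS.wt_pos _), fun x => ⟨?_, ?_⟩⟩,
    fun d hd _ a ha => Pool.Agent.R274.UniS.uniformS d hd a ha⟩
  · have hpos := Real.sqrt_pos.2 (Pool.Agent.R274.UniS.wt_pos Pool.Agent.R274.UniS.k0)
    rw [← le_div_iff₀' hpos]
    apply Pool.Agent.R274.UniS.norm_le_of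
    · exact div_nonneg (apply_nonneg _ _) hpos.le
    · intro i
      rw [le_div_iff₀' hpos]
      exact Pool.Agent.R274.UniS.le_NN x i
  · exact Pool.Agent.R274.UniS.NN_le (norm_nonneg x) (Pool.Agent.R274.UniS.abs_le_norm x)

end Pool.Agent.Results.MP_c793c5_an.UniformSNorm
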